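import Pool.Agent.W_7d29a1_h46.Fin46
import Pool.Agent.W_7d29a1_h46.All
import Pool.Agent.W_7d29a1_h46u.StrU

/-!
# Directed polymers: the wandering exponent in almost every direction

The definitions are in `Pool/Agent/W_MP_7d29a1_pr/Model.lean` (walks, positions, energies) and
`Pool/Agent/W_7d29a1_h46/Model.lean`: `Vec d` is `ℝ^d` with the Euclidean norm, `nuT μ β ω h v`
is the wandering exponent around the direction `v` of the polymer measure tilted by
`exp ⟨h, S_n⟩` (for `h = 0`, `v = 0` it is the exponent `ν` of the problem) and `chiT μ β ω h` is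
the fluctuation exponent of its partition function (for `h = 0` it is the exponent `χ` of the
problem).
-/

namespace Pool.Agent.Results.MP_7d29a1_pr.Directions

open MeasureTheory ProbabilityTheory Pool.Agent.W_MP_7d29a1_pr Pool.Agent.W_7d29a1_h46

/-- Every dimension `d ≥ 1`, every `β > 0`, every i.i.d. site disorder which is not almost surely
constant and has all exponential moments. -/
theorem result {Ω : Type*} [MeasurableSpace Ω] (μ : Measure Ω) [IsProbabilityMeasure μ] {d : ℕ}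
    (hd : 1 ≤ d) (ω : ℕ × Site d → Ω → ℝ) (hmeas : ∀ p, Measurable (ω p))
    (hindep : iIndepFun ω μ) (hident : ∀ p q, IdentDistrib (ω p) (ω q) μ μ)
    (hnc : ∀ p, ¬ ∃ c : ℝ, ∀ᵐ x ∂μ, ω p x = c)
    (hexp : ∀ (b : ℝ) p, Integrable (fun x => Real.exp (b * ω p x)) μ) {β : ℝ} (hβ : 0 < β) :
    (∀ h v : Vec d, 1 / ((d : ℝ) + 2) ≤ nuT μ β ω h v) ∧
    (∀ a : ℝ, 1 / ((d : ℝ) + 2) < a → a < 1 → dimH {v : Vec d | ∃ h, nuT μ β ω h v < a} ≤
      ENNReal.ofReal (d * (min (2 * a) (((d : ℝ) + 2) * a - 1) / (2 * (1 - a))))) ∧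
    (∀ᵐ v : Vec d, ∀ h, 1 / 2 ≤ nuT μ β ω h v) ∧
    (∀ᵐ h : Vec d, ∃ v, nuT μ β ω h v ≤ 3 / 4) ∧
    (d = 1 → (∀ᵐ v : Vec d, ∀ h, 3 / 5 ≤ nuT μ β ω h v) ∧
      (∀ᵐ h : Vec d, 1 / 8 ≤ chiT μ β ω h) ∧
      dimH {h : Vec d | ¬ ((∃ v, nuT μ β ω h v < 1) ∧ 0 < chiT μ β ω h)} = 0) := by
  set p0 : ℕ × Site d := (0, 0) with hp0
  set ρ : Measure ℝ := μ.map (ω p0) with hρ
  have : IsProbabilityMeasure ρ := Measure.isProbabilityMeasure_map (hmeas p0).aemeasurable
  have hω : IID μ ρ ω := ⟨hmeas, hindep, fun p => (hident p p0).map_eq⟩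
  have hnc' : ∀ c : ℝ, ρ {c} ≠ 1 := by
    intro c hc
    apply hnc p0
    refine ⟨c, ?_⟩
    rw [hρ, Measure.map_apply (hmeas p0) (measurableSet_singleton c)] at hc
    have h1 : MeasurableSet (ω p0 ⁻¹' {c}) := hmeas p0 (measurableSet_singleton c)
    exact (prob_compl_eq_zero_iff h1).2 hc
  have hexp' : ∀ b : ℝ, Integrable (fun t => Real.exp (b * t)) ρ := by
    intro b
    rw [hρ, integrable_map_measure (by fun_prop) (hmeas p0).aemeasurable]
    exact hexp b p0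
  refine ⟨fun h v => nuT_ge hd hω hnc' hexp' hβ h v, fun a ha0 ha1 => ?_,
    ae_half hd hω hnc' hβ (hexp' β), ?_, ?_⟩
  · exact dim_bound hd hω hnc' hβ (hexp' β) ha0 ha1
  · filter_upwards [W_7d29a1_h46u.ae_relation (β := β) hd hω hexp'] with h hh
    obtain ⟨v, hv⟩ := hh
    have h1 := W_7d29a1_h46u.chiS_le_half (β := β) hd hω hexp' h
    have h2 := W_7d29a1_h46u.nuT_le_nuS (β := β) hd hω h v
    exact ⟨v, by linarith⟩
  · rintro rfl
    refine ⟨ae_three_fifths rfl hω hnc' hβ (hexp' β), ?_, dim_zero hω hnc' hβ hexp'⟩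
    filter_upwards [ae_upper hω hexp'] with h hh
    obtain ⟨v, hv⟩ := hh
    exact chi_eighth hω hnc' hβ hexp' hv

end Pool.Agent.Results.MP_7d29a1_pr.Directions
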