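import Pool.Agent.W_7d29a1_Q29.FinX29

/-!
# Directed polymers in very strong disorder, in every dimension: fluctuations, wandering and localization

The definitions are in `Pool/Agent/W_MP_7d29a1_pr/Model.lean` and `Pool/Agent/W_7d29a1_h46/Model.lean`: walks of length `n` are
step sequences `s : Fin n → Step d` of simple random walk on `ℤ ^ d` (`Step d` is the set of the `2 d` steps), `pos s i` is the
position `S_i`, `energy η s` is `∑_{i=1}^n η (i, S_i)`; for a tilt `h`, `Zn β h η n` is the partition function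
`Z_n = E exp (⟨h, S_n⟩ + β ∑_{i=1}^n η (i, S_i))` and `PolT β h η E` is the probability of the event `E` under the polymer measure
with the tilt `h` (the polymer measure of the problem tilted by `e ^ ⟨h, S_n⟩`), so that a sum over the walks `s` with the weights
`PolT β h η {s}` is an expectation under it; `h = 0` is the polymer of the problem.
-/

namespace Pool.Agent.Results.MP_7d29a1_pr.DivergentFluctuations

open MeasureTheory ProbabilityTheory Filter Topology Pool.Agent.W_MP_7d29a1_pr Pool.Agent.W_7d29a1_h46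

/-- **Directed polymers in very strong disorder, in every dimension: fluctuations, wandering and localization.** For every
dimension `d ≥ 1`, every i.i.d. site disorder which is not almost surely constant and has all exponential moments and every
`β > 0`: `lam h` is the quenched and `ann h` the annealed free energy at the tilt `h`, and very strong disorder is
`lam h < ann h`; it holds on a nonempty open set of tilts in every dimension, at every tilt in the dimensions `1` and `2`, and at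
every tilt at which there is strong disorder at some smaller inverse temperature. -/
theorem result {Ω : Type*} [MeasurableSpace Ω] (μ : Measure Ω) [IsProbabilityMeasure μ] {d : ℕ}
    (hd : 1 ≤ d) (ω : ℕ × Site d → Ω → ℝ) (hmeas : ∀ p, Measurable (ω p))
    (hindep : iIndepFun ω μ) (hident : ∀ p q, IdentDistrib (ω p) (ω q) μ μ)
    (hnc : ¬ ∃ c : ℝ, ∀ᵐ x ∂μ, ω (0, 0) x = c)
    (hexp : ∀ b : ℝ, Integrable (fun x => Real.exp (b * ω (0, 0) x)) μ) {β : ℝ} (hβ : 0 < β) :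
    ∃ lam ann : Vec d → ℝ,
      (∀ h, Tendsto (fun n : ℕ => (∫ x, Real.log (Zn β h (fun p => ω p x) n) ∂μ) / n) atTop
        (𝓝 (lam h))) ∧
      (∀ h, ∀ n : ℕ, ∫ x, Zn β h (fun p => ω p x) n ∂μ = Real.exp (n * ann h)) ∧
      -- the tilts of very strong disorder
      (∃ U : Set (Vec d), IsOpen U ∧ U.Nonempty ∧ ∀ h ∈ U, lam h < ann h) ∧
      (d ≤ 2 → ∀ h, lam h < ann h) ∧
      (∀ (h : Vec d) (b : ℝ), 0 < b → b < β → (∀ᵐ x ∂μ, Tendsto (fun n : ℕ =>
        Zn b h (fun p => ω p x) n / ∫ y, Zn b h (fun p => ω p y) n ∂μ) atTop (𝓝 0)) →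
          lam h < ann h) ∧
      -- (1) very strong disorder, every tilt
      (∀ h, lam h < ann h → ∃ c : ℝ, 0 < c ∧ ∀ᶠ n : ℕ in atTop,
        (n : ℝ) ^ c ≤ Var[fun x => Real.log (Zn β h (fun p => ω p x) n); μ] ∨
        ∃ m : ℕ, (n : ℝ) ^ c ≤ m ∧ m ≤ n ∧ ∀ v : Vec d,
          1 / 8 < ∫ x, PolT β h (fun p => ω p x) {s : Fin m → Step d | ∃ i ≤ m,
            (m : ℝ) ^ (1 / (d : ℝ) + c) < ‖emb (pos s i) - (i : ℝ) • v‖} ∂μ) ∧
      (∀ h, lam h < ann h → ∀ R κ : ℝ, 0 < κ → ∀ᶠ n : ℕ in atTop, ∀ a : ℝ,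
        μ.real {x | |Real.log (Zn β h (fun p => ω p x) n) - a| ≤ R} ≤ κ) ∧
      (∀ h, lam h < ann h → ∀ C : ℝ, ∀ᶠ n : ℕ in atTop, ∃ m : ℕ, m ≤ n ∧
        C * Real.log n ≤ ∫ x, |Real.log (Zn β h (fun p => ω p x) m) - m * lam h| ∂μ) ∧
      (∀ h, lam h < ann h → ∀ C : ℝ, ∃ θ : ℝ, 0 < θ ∧
        ((∃ᶠ n : ℕ in atTop, ∀ m : ℕ, m ≤ n →
          C * Var[fun x => Real.log (Zn β h (fun p => ω p x) m); μ] ≤
            (n * lam h - ∫ x, Real.log (Zn β h (fun p => ω p x) n) ∂μ) ^ 2) ∨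
          ∀ᶠ n : ℕ in atTop,
            (n : ℝ) ^ θ ≤ Var[fun x => Real.log (Zn β h (fun p => ω p x) n); μ])) ∧
      -- (2) every tilt
      (∀ (h : Vec d) (a b : ℝ), 0 ≤ a → a < b → (∀ᶠ n : ℕ in atTop,
        Var[fun x => Real.log (Zn β h (fun p => ω p x) n); μ] ≤ (n : ℝ) ^ a) → ∀ᶠ n : ℕ in atTop,
          ∫ x, (Real.log (Zn β h (fun p => ω p x) n) - n * lam h) ^ 2 ∂μ ≤ (n : ℝ) ^ b) ∧
      -- (3) dimension two
      (d = 2 → ∀ K : ℝ, ∃ c : ℝ, 0 < c ∧
        (∀ h : Vec d, ‖h‖ ≤ K → (∀ᶠ n : ℕ in atTop,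
          (n : ℝ) ^ c ≤ Var[fun x => Real.log (Zn β h (fun p => ω p x) n); μ]) ∨
          ∀ δ : ℝ, 0 < δ → ∃ r : ℝ, 0 < r ∧ r ≤ δ ∧ ∃ j : Fin d, r ^ (2 - c) <
            lam (h + r • EuclideanSpace.single j 1) + lam (h - r • EuclideanSpace.single j 1) -
              2 * lam h) ∧
        ∀ᵐ h : Vec d, ‖h‖ ≤ K → ∀ᶠ n : ℕ in atTop,
          (n : ℝ) ^ c ≤ Var[fun x => Real.log (Zn β h (fun p => ω p x) n); μ]) ∧
      -- (4) the end point is not diffusive
      (∀ R ε : ℝ, 0 < ε → ∀ᶠ N : ℕ in atTop, volume {v : Vec d | ∃ h : Vec d, lam h < ann h ∧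
        (∀ k : Vec d, lam h + inner ℝ v k ≤ lam (h + k)) ∧ ∀ B : Finset ℕ, B.card ≤ ε * N →
          ∃ n, N ≤ n ∧ n < 2 * N ∧ n ∉ B ∧ ∫ x, PolT β h (fun p => ω p x)
            {s : Fin n → Step d | R * Real.sqrt n < ‖emb (pos s n) - (n : ℝ) • v‖} ∂μ ≤ 1 - ε} ≤
        ENNReal.ofReal ε) ∧
      -- (5) localization, almost every velocity
      (∀ᵐ v : Vec d,
        (∀ h, lam h < ann h → (h = 0 ∨ ∀ k : Vec d, lam h + inner ℝ v k ≤ lam (h + k)) →
          ∀ κ : ℝ, 0 < κ → ∃ L : ℝ, ∀ᶠ N : ℕ in atTop, ∃ B : Finset ℕ, B.card ≤ κ * N ∧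
            ∀ n, N ≤ n → n < 2 * N → n ∉ B → ∀ t ≤ n, ∃ c : Ω → Vec d,
              1 - κ < ∫ x, PolT β h (fun p => ω p x)
                {s : Fin n → Step d | ‖emb (pos s t) - c x‖ ≤ L} ∂μ)) :=
  Pool.Agent.W_7d29a1_Q29.finX29 μ hd ω hmeas hindep hident hnc hexp hβ

end Pool.Agent.Results.MP_7d29a1_pr.DivergentFluctuations
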