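import Pool.Agent.W_7d29a1_KL.FinV46

/-!
# The scaling exponents of directed polymers in every dimension

The definitions are in `Pool/Agent/W_MP_7d29a1_pr/Model.lean` (walks, positions, energies, the
exponent `nu` of the problem), `Pool/Agent/W_7d29a1_VT/Chi46.lean` (the exponent `chi` of the
problem), `Pool/Agent/W_7d29a1_h46/Model.lean` (the polymer with a tilt `h`: `Vec d` is `ℝ^d` with
the Euclidean norm, `Zn` the partition function `E exp (⟨h, S_n⟩ + β ∑_{i ≤ n} η (i, S_i))`, `PolT`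
its polymer measure, `tube` the event `max_{i ≤ n} ‖S_i - i v‖ ≤ r`, `nuT μ β ω h v` and
`chiT μ β ω h` the exponents of the problem for the polymer with tilt `h` around the direction
`v`), `Pool/Agent/W_7d29a1_h46u/StrD.lean` (`nuS`: the probability of leaving the tube is
`O(n ^ (-q))` for every `q`), `Pool/Agent/W_7d29a1_D2/Defs46.lean` (`chiF`: all central moments of
`log Z_n(h)`; `gap`, `UpG`, `LoA`: the growth of the free energy), `Pool/Agent/W_7d29a1_KL/FlucD46.lean`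
(`chiV`: the variance, upper exponent), `Pool/Agent/W_7d29a1_PK/DefsLK5.lean` (`chiLo`, `nuLo`: the
lower exponents) and `Pool/Agent/W_7d29a1_KL/SubD46.lean` (`SubG`: the subgradients; `FlG`: flat to
second order; `InG`: infinite curvature in some direction).
-/

namespace Pool.Agent.Results.MP_7d29a1_pr.EveryDimension

open MeasureTheory ProbabilityTheory Filter Topology Pool.Agent.W_MP_7d29a1_pr
  Pool.Agent.W_7d29a1_h46 Pool.Agent.W_7d29a1_h46u Pool.Agent.W_7d29a1_D2 Pool.Agent.W_7d29a1_V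
  Pool.Agent.W_7d29a1_VT Pool.Agent.W_7d29a1_KL

open Pool.Agent.W_7d29a1_PK (chiLo nuLo)

/-- **The scaling exponents in every dimension.** Every dimension `d ≥ 1`, every `β > 0`, every
i.i.d. site disorder which is not almost surely constant and has all exponential moments. -/
theorem result {d : ℕ} (hd : 1 ≤ d) {Ω : Type*} [MeasurableSpace Ω] (μ : Measure Ω)
    [IsProbabilityMeasure μ] (ω : ℕ × Site d → Ω → ℝ) (hmeas : ∀ p, Measurable (ω p))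
    (hindep : iIndepFun ω μ) (hident : ∀ p q, IdentDistrib (ω p) (ω q) μ μ)
    (hnc : ∀ p, ¬ ∃ c : ℝ, ∀ᵐ x ∂μ, ω p x = c)
    (hexp : ∀ (b : ℝ) p, Integrable (fun x => Real.exp (b * ω p x)) μ) {β : ℝ} (hβ : 0 < β) :
    -- the exponents of the problem
    nuT μ β ω 0 0 = nu μ β ω ∧ chiT μ β ω 0 = chi μ β ω ∧
    ∃ L : Vec d → ℝ,
      -- the free energy
      (∀ h, ∀ᵐ x ∂μ, Tendsto (fun n : ℕ =>
        Real.log (Zn β h (fun p => ω p x) n) / n) atTop (𝓝 (L h))) ∧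
      ConvexOn ℝ Set.univ L ∧ (∀ h : Vec d, h ≠ 0 → L 0 < L h) ∧
      -- the scaling relation, every tilt `h`, every direction `v` (`h = 0`, `v = 0` included)
      (∀ h v : Vec d, (LoA L h v 2 → UpG L h v 2 →
          chiF μ β ω h = 2 * nuS μ β ω h v - 1 ∧ chiLo μ β ω h = 2 * nuLo μ β ω h v - 1 ∧
          3 / ((d : ℝ) + 4) < nuS μ β ω h v ∧ nuS μ β ω h v ≤ 2 / 3) ∧
        (∀ p : ℝ, 1 ≤ p → UpG L h v p → p < 2 * d + 1 ∧
          p * nuT μ β ω h v ≤ 1 + (p - 1) * chiV μ β ω h ∧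
          p * nuS μ β ω h v ≤ 1 + (p - 1) * chiF μ β ω h) ∧
        (∀ p : ℝ, 1 ≤ p → ¬ UpG L h v p → 1 + (p - 1) * chiLo μ β ω h ≤ p * nuS μ β ω h v) ∧
        (∀ p : ℝ, 1 < p → ¬ LoA L h v p → p * nuLo μ β ω h v ≤ 1 + (p - 1) * chiF μ β ω h) ∧
        (∀ p : ℝ, 2 * (d : ℝ) + 1 < p → LoA L h v p) ∧
        (nuLo μ β ω h v = nuS μ β ω h v → chiLo μ β ω h = chiF μ β ω h → ∀ e : ℝ, 0 < e →
          UpG L h v ((1 - chiF μ β ω h) / (nuS μ β ω h v - chiF μ β ω h) - e) ∧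
          LoA L h v ((1 - chiF μ β ω h) / (nuS μ β ω h v - chiF μ β ω h) + e)) ∧
        (∀ p : ℝ, 1 < p → LoA L h v p → 1 + (p - 1) * chiF μ β ω h ≤ p * nuS μ β ω h v ∧
          1 + (p - 1) * chiLo μ β ω h ≤ p * nuLo μ β ω h v) ∧
        ∀ p : ℝ, 1 < p → UpG L h v p → p * nuLo μ β ω h v ≤ 1 + (p - 1) * chiLo μ β ω h) ∧
      -- the inequalities, every tilt `h`, every direction `v`
      (∀ h v : Vec d, 1 < d * nuT μ β ω h v + 2 * chiT μ β ω h ∧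
        1 / ((d : ℝ) + 1) < nuT μ β ω h v ∧ 2 * chiV μ β ω h ≤ nuT μ β ω h v ∧
        nuT μ β ω h v ≤ nuS μ β ω h v ∧ nuS μ β ω h v ≤ 1 ∧ chiT μ β ω h ≤ chiV μ β ω h ∧
        chiV μ β ω h ≤ chiF μ β ω h ∧ 2 * chiF μ β ω h ≤ nuS μ β ω h v ∧
        chiT μ β ω h ≤ chiLo μ β ω h ∧ chiLo μ β ω h ≤ chiF μ β ω h ∧
        nuLo μ β ω h v ≤ nuS μ β ω h v ∧
        ∀ x : ℝ, chiV μ β ω h < x → ∀ᶠ n : ℕ in atTop,
          0 ≤ n * L h - ∫ y, Real.log (Zn β h (fun p => ω p y) n) ∂μ ∧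
          n * L h - ∫ y, Real.log (Zn β h (fun p => ω p y) n) ∂μ ≤ (n : ℝ) ^ x) ∧
      -- dimension two
      (d = 2 → ∀ K : ℝ, ∃ c : ℝ, 0 < c ∧
        (∀ h v : Vec d, ‖h‖ ≤ K → UpG L h v (2 - c) → c ≤ chiT μ β ω h) ∧
        (∀ h v : Vec d, ‖h‖ ≤ K → ¬ UpG L h v (2 + c) → 1 / 2 + c ≤ nuS μ β ω h v) ∧
        ∀ᵐ v : Vec d, ∀ h : Vec d, ‖h‖ ≤ K → 1 / 2 + c ≤ nuT μ β ω h v) ∧
      -- almost every tilt
      (∀ᵐ h : Vec d, ∃ v : Vec d, SubG L h v ∧ UpG L h v 2 ∧ (d = 2 → 0 < chiT μ β ω h) ∧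
        2 * nuT μ β ω h v - 1 ≤ chiV μ β ω h ∧ nuS μ β ω h v ≤ 2 / 3 ∧
        (FlG L h v ∨ (1 / 2 ≤ nuT μ β ω h v ∧ chiV μ β ω h = 2 * nuT μ β ω h v - 1 ∧
          chiF μ β ω h = 2 * nuS μ β ω h v - 1))) ∧
      -- almost every velocity
      (∀ᵐ v : Vec d, (∑ k, |v k| < 1 → ∃ h, SubG L h v) ∧
        ∀ h : Vec d, 1 / 2 ≤ nuT μ β ω h v ∧ chiV μ β ω h ≤ 2 * nuT μ β ω h v - 1 ∧
          (SubG L h v → InG L h v ∨ (chiV μ β ω h = 2 * nuT μ β ω h v - 1 ∧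
            nuS μ β ω h v ≤ 2 / 3 ∧ chiF μ β ω h = 2 * nuS μ β ω h v - 1))) :=
  finalV hd μ ω hmeas hindep hident hnc hexp hβ

end Pool.Agent.Results.MP_7d29a1_pr.EveryDimension
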