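import Pool.Agent.W_7d29a1_C1.MainT29
import Pool.Agent.W_7d29a1_C1.RootZ91

/-!
# The scaling exponents of directed polymers in dimension `1 + 1` under a force

The definitions are in `Pool/Agent/W_7d29a1_h47/Model.lean`, `Pool/Agent/W_7d29a1_h47q/ModelQ.lean` and
`Pool/Agent/W_7d29a1_HM/ModelH.lean`: walks of length `n` are step sequences `s : Fin n → Bool` of simple random walk on `ℤ`,
`walk s i` is the position `S_i`, `energy η s` is `∑_{i=1}^n η (i, S_i)`; for a force `h`, `fZ β h η n` is the partition function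
`Z_n(h) = E exp (h S_n + β ∑_{i=1}^n η (i, S_i))`, `fE β h η n` the expectation and `fP β h η n` the probability under the polymer
measure with the force `h` (the polymer measure of the problem tilted by `e ^ (h S_n)`), `endMGF β h η n` the moment generating
function `E_n e ^ (h S_n)`, `mxv v s` the maximum `max_{i ≤ n} |S_i - v i|`; `nuF P β h v ω` and `chiF P β h ω` are the exponents
`ν` and `χ` of the problem (dimension `1`) for the polymer measure with the force `h`, the path `S_i - v i` and `log Z_n(h)`; for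
`h = v = 0` they are `ν` and `χ`.
-/

namespace Pool.Agent.Results.MP_7d29a1_pr.TwoThirds

open MeasureTheory ProbabilityTheory Filter Topology
open Pool.Agent.W_7d29a1_h47 (walk endMGF)
open Pool.Agent.W_7d29a1_HM

/-- **The exponents of the directed polymer in dimension `1 + 1` are `ν = 2 / 3` and `χ = 1 / 3`.** For every i.i.d. site disorder on
`ℕ × ℤ` which is not almost surely constant and has all exponential moments, for every `β > 0` and every force `h` (`h = 0` is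
the polymer of the problem): `ν_h = 2 / 3`, `χ_h = 1 / 3`; with `λ` the free energy under a force, `σ_n` the standard deviation of
`log Z_n(h)`, `v = λ'(h)` the velocity and `J` the rate function of the end point: `σ_n = n ^ (1 / 3 + o(1))`, all moments of
`|S_n - n v|` and of `max |S_i - i v|` are `n ^ (2 q / 3 + o(1))`, `λ (h + r) - λ h - r v = |r| ^ (2 + o(1))` and
`J (v + u) - J v - h u = |u| ^ (2 + o(1))`. There is a dense set of forces `h` at which `λ` is quadratic and the path fluctuates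
exactly at the scale `√(n σ_n)` (all moments, stretched exponential tails, the end point is spread); for Lebesgue almost every
force the second moment of the path is at most `C n σ_n`, for almost every velocity that of the end point is at least `c n σ_n`. -/
theorem result {Ω : Type*} [MeasurableSpace Ω] (P : Measure Ω) [IsProbabilityMeasure P]
    (ω : ℕ × ℤ → Ω → ℝ) (hmeas : ∀ p, Measurable (ω p)) (hindep : iIndepFun ω P)
    (hident : ∀ p q, IdentDistrib (ω p) (ω q) P P) (hnc : ¬ ∃ c : ℝ, ∀ᵐ x ∂P, ω (0, 0) x = c)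
    (hexp : ∀ b : ℝ, Integrable (fun x => Real.exp (b * ω (0, 0) x)) P) {β : ℝ} (hβ : 0 < β) :
    nuF P β 0 0 ω = 2 / 3 ∧ chiF P β 0 ω = 1 / 3 ∧
    ∃ (lam J : ℝ → ℝ) (σ : ℝ → ℕ → ℝ), Differentiable ℝ lam ∧ deriv lam 0 = 0 ∧ Set.range (deriv lam) = Set.Ioo (-1) 1 ∧
      (∀ h, ∀ᵐ x ∂P, Tendsto (fun n : ℕ => Real.log (endMGF β h (fun p => ω p x) n) / n) atTop (𝓝 (lam h))) ∧
      (∀ v, |v| < 1 → IsLUB (Set.range fun k => k * v - lam k) (J v)) ∧
      (∀ h n, σ h n = Real.sqrt (Var[fun x => Real.log (fZ β h (fun p => ω p x) n); P])) ∧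
      -- every force
      (∀ h : ℝ,
        nuF P β h (deriv lam h) ω = 2 / 3 ∧ chiF P β h ω = 1 / 3 ∧
        Tendsto (fun n : ℕ => Real.log (σ h n) / Real.log n) atTop (𝓝 (1 / 3)) ∧
        (∀ ε : ℝ, 0 < ε → ∀ᶠ n : ℕ in atTop, (n : ℝ) ^ (1 / 3 - ε) ≤ σ h n ∧ σ h n ≤ (n : ℝ) ^ (1 / 3 + ε)) ∧
        (∀ (q : ℕ) (ε : ℝ), 0 < ε → ∀ᶠ n : ℕ in atTop,
          (n : ℝ) ^ (2 / 3 * (q : ℝ) - ε) ≤
            ∫ x, fE β h (fun p => ω p x) n (fun s => |(walk s n : ℝ) - deriv lam h * n| ^ q) ∂P ∧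
          ∫ x, fE β h (fun p => ω p x) n (fun s => |(walk s n : ℝ) - deriv lam h * n| ^ q) ∂P ≤
            ∫ x, fE β h (fun p => ω p x) n (fun s => mxv (deriv lam h) s ^ q) ∂P ∧
          ∫ x, fE β h (fun p => ω p x) n (fun s => mxv (deriv lam h) s ^ q) ∂P ≤ (n : ℝ) ^ (2 / 3 * (q : ℝ) + ε)) ∧
        (∀ ε : ℝ, 0 < ε → ∃ r₀ : ℝ, 0 < r₀ ∧ ∀ r : ℝ, 0 < |r| → |r| ≤ r₀ →
          |r| ^ (2 + ε) ≤ lam (h + r) - lam h - r * deriv lam h ∧
          lam (h + r) - lam h - r * deriv lam h ≤ |r| ^ (2 - ε)) ∧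
        (∀ ε : ℝ, 0 < ε → ∃ u₀ : ℝ, 0 < u₀ ∧ ∀ u : ℝ, 0 < |u| → |u| ≤ u₀ →
          |u| ^ (2 + ε) ≤ J (deriv lam h + u) - J (deriv lam h) - h * u ∧
          J (deriv lam h + u) - J (deriv lam h) - h * u ≤ |u| ^ (2 - ε))) ∧
      -- a dense set of forces
      (∃ T : Set ℝ, Dense T ∧ ∀ h ∈ T, ∃ c C : ℝ, 0 < c ∧
        (∀ r : ℝ, |r| ≤ 1 → c * r ^ 2 ≤ lam (h + r) - lam h - r * deriv lam h ∧
          lam (h + r) - lam h - r * deriv lam h ≤ C * r ^ 2) ∧
        (∀ᶠ n : ℕ in atTop,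
          c * (n * σ h n) ≤
            ∫ x, fE β h (fun p => ω p x) n (fun s => |(walk s n : ℝ) - deriv lam h * n| ^ 2) ∂P ∧
          ∫ x, fE β h (fun p => ω p x) n (fun s => mxv (deriv lam h) s ^ 2) ∂P ≤ C * (n * σ h n)) ∧
        (∀ᶠ n : ℕ in atTop, ∀ R : ℝ, 1 ≤ R → 1 - ∫ x, fP β h (fun p => ω p x) n
          {s | mxv (deriv lam h) s ≤ R * Real.sqrt (n * σ h n)} ∂P ≤ C * Real.exp (-(c * R ^ c))) ∧
        (∀ ε : ℝ, 0 < ε → ∃ a : ℝ, 0 < a ∧ ∀ᶠ n : ℕ in atTop, ∫ x, fP β h (fun p => ω p x) n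
          {s | |(walk s n : ℝ) - deriv lam h * n| ≤ a * Real.sqrt (n * σ h n)} ∂P ≤ ε) ∧
        (∀ q : ℕ, ∃ a A : ℝ, 0 < a ∧ ∀ᶠ n : ℕ in atTop,
          a * Real.sqrt (n * σ h n) ^ q ≤
            ∫ x, fE β h (fun p => ω p x) n (fun s => |(walk s n : ℝ) - deriv lam h * n| ^ q) ∂P ∧
          ∫ x, fE β h (fun p => ω p x) n (fun s => mxv (deriv lam h) s ^ q) ∂P ≤ A * Real.sqrt (n * σ h n) ^ q)) ∧
      -- almost every force
      (∀ᵐ h : ℝ, ∃ C : ℝ, ∀ᶠ n : ℕ in atTop,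
          ∫ x, fE β h (fun p => ω p x) n (fun s => mxv (deriv lam h) s ^ 2) ∂P ≤ C * (n * σ h n)) ∧
      -- almost every velocity
      (∀ᵐ v : ℝ, ∀ h : ℝ, deriv lam h = v → ∃ c : ℝ, 0 < c ∧ ∀ᶠ n : ℕ in atTop, c * (n * σ h n) ≤
          ∫ x, fE β h (fun p => ω p x) n (fun s => |(walk s n : ℝ) - v * n| ^ 2) ∂P) :=
  Pool.Agent.W_7d29a1_C1.main_T29
    (Pool.Agent.W_7d29a1_C1.R91.hX91 fun _ _ _ _ _ _ _ _ hI => Pool.Agent.W_7d29a1_C1.R91.opn91 hI)
    P ω hmeas hindep hident hnc hexp hβ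

end Pool.Agent.Results.MP_7d29a1_pr.TwoThirds
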